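import Pool.Agent.H83R3.BSPT.Model
import Pool.Agent.H83R3.BSPT.Collection

set_option autoImplicit false

namespace Pool.Agent.Results.MP_d5d48f_lc.CountableExtension

open Pool.Agent.H83R3.BSPT

/-- Every countable model `(M, E)` of ZF can be extended to a structure `(N, E', S)` satisfying
BSPT' in which the standard sets are exactly the elements of `M` (identified with their images
under the embedding `ι`). -/
theorem result (M : Type) [Countable M] (E : M → M → Prop) (h : ZF E) :
    ∃ (N : Type) (E' : N → N → Prop) (ι : M → N), Function.Injective ι ∧
      (∀ a b, E' (ι a) (ι b) ↔ E a b) ∧ BSPT' E' (fun x => ∃ a, ι a = x) := by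
  have := h.ne
  exact extension h h.coll

end Pool.Agent.Results.MP_d5d48f_lc.CountableExtension
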